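import Pool.Agent.Helper28.WK.StA
import Pool.Agent.Helper22.CV.M_CoreOf

/-!
# WK MODULE Dim: `ev` of every symbol is in the span of an independent family
-/

set_option autoImplicit false

namespace Pool.Agent.Helper37.WK

open Pool.Agent.Helper14.CV Pool.Agent.Helper28.WK

theorem hDim : StDim := by
  intro h3a h3b hUB m G hm hG hli H hH
  obtain ⟨hfin, hle⟩ := Pool.Agent.Helper22.CV.V_bound h3a h3b hUB m (by omega)
  have hsub : Submodule.span ℂ (Set.range fun k => evL (G k)) ≤ Pool.Agent.Helper22.CV.V m := by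
    rw [Submodule.span_le]
    rintro _ ⟨k, rfl⟩
    exact ⟨G k, hG k, rfl⟩
  have hrk : Module.finrank ℂ (Submodule.span ℂ (Set.range fun k => evL (G k))) = DD m := by
    rw [finrank_span_eq_card hli, Fintype.card_fin]
  have heq := Submodule.eq_of_le_of_finrank_le hsub (by rw [hrk]; exact hle)
  rw [heq]
  exact ⟨H, hH, rfl⟩

end Pool.Agent.Helper37.WK
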